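import Pool.Agent.Q296.HD.Ham
import Pool.Agent.Q296.HD.Deck

/-!
# The number of Hamilton cycles is not determined by the small induced subgraphs

For every `c < 1` there are arbitrarily large `n` and two `n`-vertex graphs `G`, `G'` with the same
deck of induced subgraphs on `⌊c n⌋` vertices such that `G` has a Hamilton cycle and `G'` has none.
-/

namespace Pool.Agent.Results.MP_9d0e7f_co.HamiltonianNotDetermined

open Pool.Agent.Q296.HD

/-- the number of Hamilton cycles of `G`, counted as connected 2-regular spanning subgraphs -/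
noncomputable def h {V : Type*} (G : SimpleGraph V) : ℕ :=
  {H : SimpleGraph V | H ≤ G ∧ H.Connected ∧ ∀ v, (H.neighborSet v).ncard = 2}.ncard

/-- `C(G,t) = C(G',t)`: for every graph `F` on `t` vertices, the same number of `t`-element vertex
sets of `G` and of `G'` induce a subgraph isomorphic to `F`. -/
def SameDeck {V W : Type*} (G : SimpleGraph V) (G' : SimpleGraph W) (t : ℕ) : Prop :=
  ∀ F : SimpleGraph (Fin t),
    {S : Finset V | S.card = t ∧ Nonempty (G.induce (S : Set V) ≃g F)}.ncard =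
      {S : Finset W | S.card = t ∧ Nonempty (G'.induce (S : Set W) ≃g F)}.ncard

lemma ham_iso {V W : Type*} {G : SimpleGraph V} {G' : SimpleGraph W} (φ : G ≃g G')
    (hH : ∃ H : SimpleGraph V, H ≤ G ∧ H.Connected ∧ ∀ v, (H.neighborSet v).ncard = 2) :
    ∃ H : SimpleGraph W, H ≤ G' ∧ H.Connected ∧ ∀ v, (H.neighborSet v).ncard = 2 := by
  obtain ⟨H, hle, hc, h2⟩ := hH
  refine ⟨H.comap φ.symm, ?_, ?_, ?_⟩
  · intro x y hxy
    have := hle (show H.Adj (φ.symm x) (φ.symm y) from hxy)
    rwa [φ.symm.map_rel_iff] at this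
  · exact (SimpleGraph.Iso.comap φ.symm.toEquiv H).connected_iff.2 hc
  · intro v
    rw [← h2 (φ.symm v)]
    apply Set.ncard_congr (fun x _ => φ.symm x)
    · intro x hx
      exact hx
    · intro x y _ _ hxy
      exact φ.symm.injective hxy
    · intro y hy
      refine ⟨φ y, ?_, φ.symm_apply_apply y⟩
      show H.Adj (φ.symm v) (φ.symm (φ y))
      rw [φ.symm_apply_apply]
      exact hy

theorem result (c : ℝ) (_hc0 : 0 ≤ c) (hc1 : c < 1) (N : ℕ) :
    ∃ n : ℕ, N ≤ n ∧ ∃ G G' : SimpleGraph (Fin n),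
      SameDeck G G' ⌊c * n⌋₊ ∧ 0 < h G ∧ h G' = 0 := by
  -- the number of rows
  obtain ⟨K, hK⟩ := exists_nat_gt (c / (1 - c))
  obtain ⟨m, hm, hm0, hcm⟩ : ∃ m : ℕ, Even m ∧ m ≠ 0 ∧ c * (m + 1) < m := by
    refine ⟨2 * (K + 1), even_two_mul _, by omega, ?_⟩
    have h1 : 0 < 1 - c := by linarith
    rw [div_lt_iff₀ h1] at hK
    push_cast
    nlinarith
  -- the number of columns
  obtain ⟨D, hD⟩ := exists_nat_gt (c * Fintype.card (Core m) / (m - c * (m + 1)))
  have hpos : 0 < (m : ℝ) - c * (m + 1) := by linarith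
  rw [div_lt_iff₀ hpos] at hD
  set d := max D N with hd
  have hdD : (D : ℝ) ≤ d := by exact_mod_cast le_max_left D N
  have hdN : N ≤ d := le_max_right D N
  refine ⟨Fintype.card (Vx m d), ?_, ?_⟩
  · rw [card_vx]
    have : d + 1 ≤ (m + 1) * (d + 1) := Nat.le_mul_of_pos_left _ (by omega)
    omega
  have ht : ⌊c * (Fintype.card (Vx m d) : ℕ)⌋₊ < m * (d + 1) := by
    rw [Nat.floor_lt (by positivity), card_vx]
    push_cast
    nlinarith
  have h0l : (0 : Fin (m + 1)) ≠ Fin.last m := by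
    intro hh
    have := congrArg Fin.val hh
    simp at this
    exact hm0 this.symm
  let σ : Equiv.Perm (Fin (m + 1)) := Equiv.swap 0 (Fin.last m)
  have hσ : Equiv.Perm.sign σ = -1 := Equiv.Perm.sign_swap h0l
  let φ := (Gr m d 1).overFinIso rfl
  let φ' := (Gr m d σ).overFinIso rfl
  refine ⟨(Gr m d 1).overFin rfl, (Gr m d σ).overFin rfl, ?_, ?_, ?_⟩
  · intro F
    have h1 := indCount_iso φ F
    have h2 := indCount_iso φ' F
    have h3 := deck_eq (σ := 1) (σ' := σ) (by omega) ht F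
    exact h1.symm.trans (h3.trans h2)
  · obtain ⟨H, hH⟩ := ham_iso φ (ham (d := d) hm hm0)
    exact (Set.ncard_pos (Set.toFinite _)).2 ⟨H, hH⟩
  · unfold h
    rw [Set.ncard_eq_zero (Set.toFinite _), Set.eq_empty_iff_forall_notMem]
    intro H hH
    obtain ⟨H', h1, h2, h3⟩ := ham_iso φ'.symm ⟨H, hH⟩
    exact not_ham hm hm0 hσ h1 h2 h3

end Pool.Agent.Results.MP_9d0e7f_co.HamiltonianNotDetermined
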